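import Pool.Agent.W908.K.K9

/-! The hidden bits cannot all be found: one algorithm and one advice string. -/

set_option autoImplicit false

namespace Pool.Agent.W908.KS

open Pool.Agent.NPC Pool.Agent.H620R2.Gauge Finset H568R2 Pool.Agent.H676
open Pool.Agent.W908.SP (mem_strsOf' card_strsOf' idx_inj Ex_owr unif_nn unif_sm Ex_unif_av)
open Pool.Agent.H591R3.PHG.Proj (owr owr_e owr_off owr_owr)
open Pool.Agent.W908.PS (pwd ppos length_ppos length_pwd idx_lt_pow pe pe_inj pwd_on orc_off
  Ex_comm qq qb qb_spec out_congr)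
open Pool.Agent.W908.HS (ppos_head)

/-- the inputs -/
def zx (w : List Bool) (r : ℕ) {κ : ℕ} (x : Fin κ → Bool) : List Bool :=
  w ++ List.ofFn x ++ List.replicate r false

theorem length_zx (w : List Bool) (r : ℕ) {κ : ℕ} (x : Fin κ → Bool) :
    (zx w r x).length = w.length + κ + r := by
  unfold zx
  simp only [List.length_append, List.length_ofFn, List.length_replicate]

theorem zx_inj (w : List Bool) (r : ℕ) {κ : ℕ} :
    Function.Injective (zx w r : (Fin κ → Bool) → List Bool) := by
  intro x x' h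
  unfold zx at h
  have h1 := List.append_cancel_right h
  exact List.ofFn_injective (List.append_cancel_left h1)

theorem kp_inj {z z' : List Bool} {i i' : ℕ} (h : kp z i = kp z' i') : z = z' ∧ i = i' := by
  unfold kp at h
  have h1 := congrArg unpair (List.cons.inj (List.cons.inj h).2).2
  rw [unpair_pairBits, unpair_pairBits, Prod.mk.injEq] at h1
  refine ⟨h1.2, ?_⟩
  have h2 := congrArg List.length h1.1
  simpa using h2

/-- the strings of the free positions -/
def st (w : List Bool) (r n : ℕ) {κ : ℕ} : ((Fin κ → Bool) × Fin n) ⊕ (Fin κ → Bool) → List Bool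
  | Sum.inl g => kp (zx w r g.1) g.2.val
  | Sum.inr x => kp (zx w r x) n

theorem st_inj (w : List Bool) (r n : ℕ) {κ : ℕ} : Function.Injective (st w r n (κ := κ)) := by
  intro g g' h
  match g, g' with
  | Sum.inl g, Sum.inl g' =>
    obtain ⟨h1, h2⟩ := kp_inj h
    exact congrArg Sum.inl (Prod.ext (zx_inj w r h1) (Fin.ext h2))
  | Sum.inl g, Sum.inr x =>
    have := (kp_inj h).2
    have := g.2.2
    omega
  | Sum.inr x, Sum.inl g =>
    have := (kp_inj h).2
    have := g.2.2
    omega
  | Sum.inr x, Sum.inr x' =>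
    exact congrArg Sum.inr (zx_inj w r (kp_inj h).1)

theorem length_st (w : List Bool) (r n : ℕ) {κ : ℕ}
    (g : ((Fin κ → Bool) × Fin n) ⊕ (Fin κ → Bool)) :
    (st w r n g).length ≤ 2 * n + (w.length + κ + r) + 3 := by
  match g with
  | Sum.inl g =>
    unfold st
    have := g.2.2
    rw [length_kp, length_zx]
    omega
  | Sum.inr x =>
    unfold st
    rw [length_kp, length_zx]

/-- the positions -/
def se (w : List Bool) (r n : ℕ) {κ N : ℕ}
    (hN : 2 ^ (2 * n + (w.length + κ + r) + 4) ≤ N)
    (g : ((Fin κ → Bool) × Fin n) ⊕ (Fin κ → Bool)) : Fin N :=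
  ⟨idx (st w r n g), (idx_lt_pow (length_st w r n g)).trans_le hN⟩

theorem se_inj (w : List Bool) (r n : ℕ) {κ N : ℕ}
    (hN : 2 ^ (2 * n + (w.length + κ + r) + 4) ≤ N) :
    Function.Injective (se w r n (κ := κ) hN) := by
  intro g g' h
  exact st_inj w r n (idx_inj (congrArg Fin.val h))

/-- the free bits -/
def fb {X : Type} {n : ℕ} (ω : (X → (Fin n → Bool)) × (X → Bool)) : (X × Fin n) ⊕ X → Bool
  | Sum.inl g => ω.1 g.1 g.2
  | Sum.inr x => ω.2 x

/-- the free bits, as an equivalence -/
def fbE {X : Type} {n : ℕ} : (X → (Fin n → Bool)) × (X → Bool) ≃ ((X × Fin n) ⊕ X → Bool) where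
  toFun := fb
  invFun v := (fun x i => v (Sum.inl (x, i)), fun x => v (Sum.inr x))
  left_inv ω := rfl
  right_inv v := by
    funext g
    match g with
    | Sum.inl g => rfl
    | Sum.inr x => rfl

open Classical in
/-- the test in a question -/
noncomputable def tau (w : List Bool) (r n T : ℕ) {κ : ℕ} (q : List Bool) :
    Option ((Fin κ → Bool) × (Fin n → Bool)) :=
  if h : ∃ p : (Fin κ → Bool) × (Fin n → Bool), ∃ c t, q = false :: true :: t ∧ q.length < T ∧
    (unpair t).1 = c :: List.ofFn p.2 ∧ (unpair t).2 = zx w r p.1 then some h.choose else none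

open Classical in
theorem keyed {N n m κ r T ℓ' : ℕ} (hTl : T ≤ 2 ^ ℓ') (hlm : ℓ' ≤ m) (hn : n = m + κ + r)
    {w : List Bool} (hN : 2 ^ (2 * n + (w.length + κ + r) + 4) ≤ N)
    (hN2 : 2 ^ (3 * m + 2) ≤ N) (a : Fin N → Bool) (z : Fin m → Bool) (hw : w = List.ofFn z) :
    Keyed (fun (k : (Fin κ → Bool) → (Fin n → Bool)) (b : (Fin κ → Bool) → Bool) =>
      wd (orc N (owr (pe hN2) (owr (se w r n hN) a (fb (k, b))) z)) T) (tau w r n T) ∧
    ∀ (k : (Fin κ → Bool) → (Fin n → Bool)) (b : (Fin κ → Bool) → Bool) (x : Fin κ → Bool),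
      orc N (owr (pe hN2) (owr (se w r n hN) a (fb (k, b))) z) (kp (zx w r x) n) = b x := by
  have hwl : w.length = m := by rw [hw, List.length_ofFn]
  have hzl : ∀ x : Fin κ → Bool, (zx w r x).length = n := fun x => by rw [length_zx, hwl, hn]
  obtain ⟨A, hA⟩ : ∃ A : ((Fin κ → Bool) → (Fin n → Bool)) → ((Fin κ → Bool) → Bool) → Oracle,
    A = fun k b => orc N (owr (pe hN2) (owr (se w r n hN) a (fb (k, b))) z) := ⟨_, rfl⟩
  have hA' : ∀ k b, orc N (owr (pe hN2) (owr (se w r n hN) a (fb (k, b))) z) = A k b := by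
    intro k b
    rw [hA]
  have hon : ∀ g k b, A k b (st w r n g) = fb (k, b) g := by
    intro g k b
    rw [hA]
    have h1 : ∀ i : Fin m, st w r n g ≠ ppos m i := by
      intro i h
      obtain ⟨t, ht⟩ := ppos_head m i
      rw [ht] at h
      match g with
      | Sum.inl g => simp [st, kp] at h
      | Sum.inr x => simp [st, kp] at h
    beta_reduce
    rw [orc_off hN2 _ _ h1]
    unfold orc
    rw [dif_pos (show idx (st w r n g) < N from (se w r n hN g).2)]
    exact owr_e (se_inj w r n hN) a _ g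
  have hoff : ∀ s, (∀ g, s ≠ st w r n (κ := κ) g) → ∀ k b k' b', A k b s = A k' b' s := by
    intro s hs k b k' b'
    rw [hA]
    beta_reduce
    unfold orc
    split_ifs with h
    · by_cases h1 : ∃ i', pe hN2 i' = ⟨idx s, h⟩
      · obtain ⟨i', hi'⟩ := h1
        rw [← hi', owr_e (pe_inj hN2), owr_e (pe_inj hN2)]
      · have h2 : ¬ ∃ g, se w r n hN g = ⟨idx s, h⟩ := by
          rintro ⟨g, hg⟩
          exact hs g (idx_inj (congrArg Fin.val hg)).symm
        rw [owr_off _ _ h1, owr_off _ _ h1, owr_off _ _ h2, owr_off _ _ h2]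
    · rfl
  have hP : ∀ k b k' b', pwd (A k b) = pwd (A k' b') := by
    intro k b k' b'
    funext m'
    unfold pwd
    refine List.map_congr_left fun i _ => hoff _ (fun g h => ?_) _ _ _ _
    obtain ⟨t, ht⟩ := ppos_head m' i
    rw [ht] at h
    match g with
    | Sum.inl g => simp [st, kp] at h
    | Sum.inr x => simp [st, kp] at h
  have hPm : ∀ k b, pwd (A k b) m = w := by
    intro k b
    rw [hw]
    rw [hA]
    exact pwd_on hN2 _ z
  have hstar : ∀ k b g, Star (pwd (A k b)) ℓ' (st w r n (κ := κ) g) := by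
    intro k b g
    have h1 : ∀ (x : Fin κ → Bool) (i : ℕ), Star (pwd (A k b)) ℓ' (kp (zx w r x) i) := by
      intro x i
      refine ⟨m, hlm, ?_, ?_⟩
      · rw [length_kp, hzl]
        omega
      · rw [hPm, core_kp]
        unfold zx
        rw [List.append_assoc]
        exact ((List.take_prefix _ _).trans (List.prefix_append _ _)).isInfix
    match g with
    | Sum.inl g => exact h1 _ _
    | Sum.inr x => exact h1 _ _
  have hwd : ∀ k b k' b', wd (A k b) T = oh (pwd (A k' b')) T (A k b) := by
    intro k b k' b'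
    unfold wd
    rw [hP k b k' b']
  refine ⟨⟨?_, ?_⟩, fun k b x => ?_⟩
  · intro q hq k b k' b'
    simp only [hA']
    rw [hwd k b k' b', hwd k' b' k' b']
    match q with
    | [] => rw [oh_nil, oh_nil]
    | true :: q =>
      refine oh_star hTl (fun s hs => hoff s (fun g hg => hs ?_) _ _ _ _) q
      rw [hg]
      exact hstar _ _ _
    | false :: s =>
      by_cases hl : (false :: s).length < T
      swap
      · rw [oh_ge (by omega), oh_ge (by omega)]
      rw [oh_data hl, oh_data hl]
      match s with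
      | [] => rfl
      | false :: s =>
        refine hoff _ (fun g h => ?_) _ _ _ _
        match g with
        | Sum.inl g => simp [st, kp] at h
        | Sum.inr x => simp [st, kp] at h
      | true :: t =>
        unfold dat
        refine kans_congr fun hwl' i hi => hoff _ (fun g hg => ?_) _ _ _ _
        have hz : ∃ x : Fin κ → Bool, (unpair t).2 = zx w r x := by
          match g with
          | Sum.inl g => exact ⟨_, (kp_inj hg).1⟩
          | Sum.inr x => exact ⟨_, (kp_inj hg).1⟩
        obtain ⟨x, hx⟩ := hz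
        rw [hx, hzl] at hwl'
        match hu : (unpair t).1 with
        | [] => rw [hu] at hwl'; simp at hwl'
        | c :: w' =>
          rw [hu, List.length_cons, Nat.add_right_cancel_iff] at hwl'
          subst hwl'
          have hex : ∃ p : (Fin κ → Bool) × (Fin w'.length → Bool), ∃ c t',
              false :: true :: t = false :: true :: t' ∧ (false :: true :: t).length < T ∧
              (unpair t').1 = c :: List.ofFn p.2 ∧ (unpair t').2 = zx w r p.1 :=
            ⟨(x, fun i => w'.get i), c, t, rfl, hl, by rw [hu, List.ofFn_get], hx⟩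
          unfold tau at hq
          rw [dif_pos hex] at hq
          simp at hq
  · intro q x u hτ
    unfold tau at hτ
    split_ifs at hτ with hex
    have hch := hex.choose_spec
    rw [Option.some.injEq] at hτ
    rw [hτ] at hch
    obtain ⟨c, t, rfl, hl, h1, h2⟩ := hch
    refine ⟨fun v => !c || v, fun k b => ?_⟩
    simp only [hA']
    rw [hwd k b k b, oh_data hl]
    show kans (A k b) (unpair t).1 (unpair t).2 = _
    rw [h1, h2]
    show (decide (List.ofFn u = key (A k b) (zx w r x)) &&
      (!c || A k b (kp (zx w r x) (zx w r x).length))) = _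
    have e1 : key (A k b) (zx w r x) = List.ofFn (k x) := by
      unfold key
      rw [hzl]
      refine List.ext_getElem (by simp) fun i h3 h4 => ?_
      rw [List.getElem_map, List.getElem_range, List.getElem_ofFn]
      rw [List.length_map, List.length_range] at h3
      exact hon (Sum.inl (x, ⟨i, h3⟩)) k b
    have e2 : A k b (kp (zx w r x) (zx w r x).length) = b x := by
      rw [hzl]
      exact hon (Sum.inr x) k b
    rw [e1, e2]
    congr 1
    rw [decide_eq_decide]
    constructor
    · intro h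
      exact (List.ofFn_injective h).symm
    · intro h
      rw [h]
  · rw [hA']
    exact hon (Sum.inr x) k b

/-- the algorithm is right for all inputs -/
def EvK (M : Alg) (n m κ r T : ℕ) (h : List Bool) (W : Oracle) : Prop :=
  ∀ x : Fin κ → Bool, (M.out (wd W T) (pairBits (zx (pwd W m) r x) h) = some [true] ↔
    W (kp (zx (pwd W m) r x) n) = true)

open Classical in
theorem evK_prob {N n m κ r T ℓ' p : ℕ} (M : Alg) (h : List Bool) (hTl : T ≤ 2 ^ ℓ')
    (hlm : ℓ' ≤ m) (hn : n = m + κ + r) (hp : M.p.eval (2 * n + 1 + h.length) ≤ p)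
    (hN : 2 ^ (3 * n + 4) ≤ N) : Ex unif (fun a : Fin N → Bool =>
      if EvK M n m κ r T h (orc N a) then (1 : ℝ) else 0) ≤
      (1 / 2) ^ (2 ^ κ) * (1 + 2 ^ κ * p / 2 ^ n) ^ (2 ^ κ) := by
  have hN2 : 2 ^ (3 * m + 2) ≤ N := (Nat.pow_le_pow_right (by norm_num) (by omega)).trans hN
  rw [Ex_owr (pe hN2) (pe_inj hN2), Ex_comm]
  refine (Ex_mono unif_nn (G := fun _ => (1 / 2) ^ (2 ^ κ) * (1 + 2 ^ κ * p / 2 ^ n) ^ (2 ^ κ))
    fun z => ?_).trans (le_of_eq (Ex_const unif_sm _))
  obtain ⟨w, hw⟩ : ∃ w, w = List.ofFn z := ⟨_, rfl⟩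
  have hwl : w.length = m := by rw [hw, List.length_ofFn]
  have hN3 : 2 ^ (2 * n + (w.length + κ + r) + 4) ≤ N :=
    (Nat.pow_le_pow_right (by norm_num) (by omega)).trans hN
  rw [Ex_owr (se w r n hN3) (se_inj w r n hN3)]
  refine (Ex_mono unif_nn (G := fun _ => (1 / 2) ^ (2 ^ κ) * (1 + 2 ^ κ * p / 2 ^ n) ^ (2 ^ κ))
    fun a => ?_).trans (le_of_eq (Ex_const unif_sm _))
  obtain ⟨hK, hb⟩ := keyed hTl hlm hn hN3 hN2 a z hw
  have h1 := all_right (M := M) (y := fun x : Fin κ → Bool => pairBits (zx w r x) h) hK (p := p)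
    (fun x => by
      refine le_trans (eval_mono _ ?_) hp
      rw [A2.length_pairBits, length_zx]
      omega)
  rw [Ex_unif_av, ← (fbE (X := Fin κ → Bool) (n := n)).sum_comp]
  have e1 : ∀ ω : ((Fin κ → Bool) → (Fin n → Bool)) × ((Fin κ → Bool) → Bool),
      (if EvK M n m κ r T h (orc N (owr (pe hN2) (owr (se w r n hN3) a (fbE ω)) z))
        then (1 : ℝ) else 0) =
      if ∀ x, (M.out (wd (orc N (owr (pe hN2) (owr (se w r n hN3) a (fb (ω.1, ω.2))) z)) T)
        (pairBits (zx w r x) h) = some [true] ↔ ω.2 x = true) then (1 : ℝ) else 0 := by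
    intro ω
    congr 1
    refine propext ?_
    unfold EvK
    rw [pwd_on hN2, ← hw]
    refine forall_congr' fun x => ?_
    have := hb ω.1 ω.2 x
    show (_ ↔ orc N (owr (pe hN2) (owr (se w r n hN3) a (fb (ω.1, ω.2))) z)
      (kp (zx w r x) n) = true) ↔ _
    rw [this]
    rfl
  rw [Finset.sum_congr rfl fun ω _ => e1 ω, Finset.sum_boole]
  have hX : Fintype.card (Fin κ → Bool) = 2 ^ κ := by simp
  have hG : Fintype.card (((Fin κ → Bool) × Fin n) ⊕ (Fin κ → Bool)) = 2 ^ κ * n + 2 ^ κ := by
    simp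
  rw [hX] at h1
  rw [hG, div_le_iff₀ (by positivity)]
  refine h1.trans (le_of_eq ?_)
  push_cast
  rw [pow_add, pow_mul', one_div, inv_pow]
  field_simp

end Pool.Agent.W908.KS
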