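import Pool.Agent.W908.H.H11

/-!
# The oracle: random bits, keys, and a solver for the polynomial hierarchy that sees only a part
-/

set_option autoImplicit false

namespace Pool.Agent.W908.KS

open Pool.Agent.NPC Pool.Agent.H620R2.Gauge Finset H568R2 Pool.Agent.H676
open Pool.Agent.W908.SP (Fo Qo bv unif_nn unif_sm Ex_owr Ex_unif_av)
open Pool.Agent.W908 (fr mach)
open Pool.Agent.W908.HS (cut mkP mkP_surj fo lvl pd unpair_len2)

/-- the position of a bit of the key of `z` -/
def kp (z : List Bool) (i : ℕ) : List Bool :=
  false :: true :: pairBits (List.replicate i true) z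

theorem length_kp (z : List Bool) (i : ℕ) : (kp z i).length = 2 * i + z.length + 3 := by
  unfold kp
  rw [List.length_cons, List.length_cons, A2.length_pairBits, List.length_replicate]

/-- the key of `z` -/
def key (A : Oracle) (z : List Bool) : List Bool :=
  (List.range z.length).map (fun i => A (kp z i))

theorem length_key (A : Oracle) (z : List Bool) : (key A z).length = z.length := by
  unfold key
  rw [List.length_map, List.length_range]

/-- the answers with a key -/
def kans (A : Oracle) (w z : List Bool) : Bool :=
  match w with
  | [] => false
  | c :: w => decide (w = key A z) && (!c || A (kp z z.length))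

/-- the data -/
def dat (A : Oracle) : Oracle
  | [] => false
  | false :: s => A (false :: false :: s)
  | true :: t => kans A (unpair t).1 (unpair t).2

theorem kans_congr {A A' : Oracle} {w z : List Bool}
    (h : w.length = z.length + 1 → ∀ i ≤ z.length, A (kp z i) = A' (kp z i)) :
    kans A w z = kans A' w z := by
  unfold kans
  match w with
  | [] => rfl
  | c :: w =>
    by_cases hw : w.length = z.length
    · have h1 := h (by rw [List.length_cons, hw])
      have h2 : key A z = key A' z := by
        unfold key
        refine List.map_congr_left fun i hi => h1 i ?_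
        rw [List.mem_range] at hi
        omega
      simp only [h2, h1 z.length le_rfl]
    · have h2 : ∀ B : Oracle, decide (w = key B z) = false := by
        intro B
        refine decide_eq_false fun h3 => hw ?_
        rw [h3, length_key]
      simp only [h2, Bool.false_and]

theorem kp_short {t : List Bool} (h : (unpair t).1.length = (unpair t).2.length + 1) {i : ℕ}
    (hi : i ≤ (unpair t).2.length) : (kp (unpair t).2 i).length < (false :: true :: t).length := by
  have h1 := unpair_len2 t
  rw [length_kp, List.length_cons, List.length_cons]
  omega

/-- the data of a query depend on shorter positions, for the same string -/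
theorem dat_congr {A A' : Oracle} {s : List Bool}
    (h : ∀ t, (false :: t).length ≤ (false :: s).length → A (false :: t) = A' (false :: t)) :
    dat A s = dat A' s := by
  match s with
  | [] => rfl
  | false :: s => exact h (false :: s) le_rfl
  | true :: t =>
    refine kans_congr fun hw i hi => h (true :: pairBits (List.replicate i true) (unpair t).2) ?_
    exact (kp_short hw hi).le

/-- the string that decides about the protection -/
def core : List Bool → List Bool
  | false :: true :: t => (unpair t).2
  | s => s

theorem core_len (s : List Bool) : (core s).length ≤ s.length := by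
  unfold core
  split
  · have h1 := (unpair_len2 ‹List Bool›)
    rw [List.length_cons, List.length_cons]
    omega
  · exact le_rfl

theorem core_kp (z : List Bool) (i : ℕ) : core (kp z i) = z := by
  unfold kp core
  simp only [unpair_pairBits]

/-- The string `s` is protected at the level `ℓ`, for the secret strings `P m`. -/
def Star (P : ℕ → List Bool) (ℓ : ℕ) (s : List Bool) : Prop :=
  ∃ m, ℓ ≤ m ∧ m ≤ s.length ∧ (P m).take ℓ <:+: core s

theorem Star.mono {P : ℕ → List Bool} {ℓ ℓ' : ℕ} (h : ℓ' ≤ ℓ) {s : List Bool}
    (hs : Star P ℓ s) : Star P ℓ' s := by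
  obtain ⟨m, h1, h2, h3⟩ := hs
  refine ⟨m, h.trans h1, h2, ?_⟩
  have h4 : (P m).take ℓ' <+: (P m).take ℓ := List.take_prefix_take_left h
  exact h4.isInfix.trans h3

theorem star_cut {P : ℕ → List Bool} {ℓ ℓ' : ℕ} (h : ℓ ≤ ℓ') {s : List Bool} :
    Star (cut P ℓ') ℓ s ↔ Star P ℓ s := by
  unfold Star cut
  simp only [List.take_take, min_eq_left h]

theorem star_congr {P P' : ℕ → List Bool} {B ℓ : ℕ} (h : ∀ m < B, P m = P' m) {s : List Bool}
    (hs : s.length < B) : Star P ℓ s ↔ Star P' ℓ s := by
  unfold Star
  refine exists_congr fun m => and_congr_right fun _ => and_congr_right fun h2 => ?_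
  rw [h m (by omega)]

/-- the data of an unprotected query do not depend on protected positions -/
theorem dat_star {P : ℕ → List Bool} {ℓ : ℕ} {A A' : Oracle} {s : List Bool}
    (h : ∀ t, ¬ Star P ℓ t → A t = A' t) (hs : ¬ Star P ℓ (false :: s)) : dat A s = dat A' s := by
  match s with
  | [] => rfl
  | false :: s => exact h _ hs
  | true :: t =>
    refine kans_congr fun hw i hi => h _ fun hk => hs ?_
    obtain ⟨m, h1, h2, h3⟩ := hk
    rw [core_kp] at h3
    exact ⟨m, h1, h2.trans (kp_short hw hi).le, h3⟩

open Classical in
/-- the protected bits are replaced -/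
noncomputable def rr (P : ℕ → List Bool) (ℓ : ℕ) (A Z : Oracle) : Oracle :=
  fun s => if Star P ℓ s then Z s else A s

/-- The answer of the solver: the more likely value if the protected bits are random. -/
noncomputable def slv (P : ℕ → List Bool) (F : Oracle → Oracle) (A : Oracle) (N : ℕ)
    (q : List Bool) : Bool :=
  decide (1 / 2 ≤ Ex unif (fun z : Fin N → Bool => bv (pd q (F (rr P (lvl q) A (orc N z))))))

/-- the answer to a question of length `T` -/
noncomputable def ev (P : ℕ → List Bool) (F : Oracle → Oracle) (A : Oracle) (T : ℕ) :
    List Bool → Bool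
  | [] => false
  | false :: s => dat A s
  | true :: q => slv P F A (2 ^ (T + 1)) q

/-- the oracle for the questions of length less than `T` -/
noncomputable def oh (P : ℕ → List Bool) : ℕ → Oracle → Oracle
  | 0 => fun _ _ => false
  | T + 1 => fun A s => if s.length < T then oh P T A s else
      if s.length = T then ev P (oh P T) A T s else false

theorem oh_ge {P : ℕ → List Bool} {T : ℕ} {A : Oracle} {s : List Bool} (h : T ≤ s.length) :
    oh P T A s = false := by
  cases T with
  | zero => rfl
  | succ T =>
    show (if s.length < T then oh P T A s else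
      if s.length = T then ev P (oh P T) A T s else false) = false
    rw [if_neg (by omega), if_neg (by omega)]

theorem oh_lt {P : ℕ → List Bool} {A : Oracle} {s : List Bool} : ∀ {T : ℕ}, s.length < T →
    oh P T A s = ev P (oh P s.length) A s.length s := by
  intro T
  induction T with
  | zero => intro h; omega
  | succ T ih =>
    intro h
    show (if s.length < T then oh P T A s else
      if s.length = T then ev P (oh P T) A T s else false) = _
    by_cases h1 : s.length < T
    · rw [if_pos h1, ih h1]
    · have h2 : s.length = T := by omega
      rw [if_neg h1, if_pos h2, h2]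

theorem oh_data {P : ℕ → List Bool} {A : Oracle} {T : ℕ} {s : List Bool}
    (h : (false :: s).length < T) : oh P T A (false :: s) = dat A s := by
  rw [oh_lt h]
  rfl

theorem oh_slv {P : ℕ → List Bool} {A : Oracle} {T : ℕ} {q : List Bool}
    (h : (true :: q).length < T) : oh P T A (true :: q) =
      slv P (oh P (q.length + 1)) A (2 ^ (q.length + 2)) q := by
  rw [oh_lt h]
  rfl

theorem oh_nil {P : ℕ → List Bool} {A : Oracle} {T : ℕ} : oh P T A [] = false := by
  by_cases h : ([] : List Bool).length < T
  · rw [oh_lt h]
    rfl
  · exact oh_ge (by omega)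

theorem oh_trunc {P : ℕ → List Bool} {A : Oracle} {T T' : ℕ} {s : List Bool}
    (h : s.length < T) (h' : s.length < T') : oh P T A s = oh P T' A s := by
  rw [oh_lt h, oh_lt h']

theorem rr_congr {P P' : ℕ → List Bool} {ℓ : ℕ} {A A' Z : Oracle} {s : List Bool}
    (h1 : Star P ℓ s ↔ Star P' ℓ s) (h2 : A s = A' s) : rr P ℓ A Z s = rr P' ℓ A' Z s := by
  classical
  unfold rr
  simp only [h1, h2]

/-- locality -/
theorem oh_congr {P P' : ℕ → List Bool} : ∀ {T : ℕ} {A A' : Oracle}, (∀ m < T, P m = P' m) →
    (∀ s : List Bool, (false :: s).length < T → A (false :: s) = A' (false :: s)) →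
    oh P T A = oh P' T A' := by
  intro T
  induction T using Nat.strong_induction_on with
  | _ T ih =>
    intro A A' hP hA
    funext s
    by_cases h : s.length < T
    · match s with
      | [] => rw [oh_nil, oh_nil]
      | false :: s =>
        rw [oh_data h, oh_data h]
        exact dat_congr fun t ht => hA t (by omega)
      | true :: q =>
        rw [oh_slv h, oh_slv h]
        unfold slv
        have hl : q.length + 1 < T := by simpa using h
        have e : ∀ z : Fin (2 ^ (q.length + 2)) → Bool,
            oh P (q.length + 1) (rr P (lvl q) A (orc _ z)) =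
              oh P' (q.length + 1) (rr P' (lvl q) A' (orc _ z)) := by
          intro z
          refine ih _ hl (fun m hm => hP m (by omega)) fun s hs => ?_
          exact rr_congr (star_congr (B := T) hP (by omega)) (hA s (by omega))
        simp only [e]
    · rw [oh_ge (by omega), oh_ge (by omega)]

theorem lvl_le {q : List Bool} {ℓ : ℕ} (h : q.length < 2 ^ ℓ) : lvl q ≤ ℓ :=
  HS.lvl_le h

/-- the answers of the solver do not depend on the protected bits -/
theorem oh_star {P : ℕ → List Bool} {T ℓ : ℕ} {A A' : Oracle} (hT : T ≤ 2 ^ ℓ)
    (h : ∀ s, ¬ Star P ℓ s → A s = A' s) (q : List Bool) :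
    oh P T A (true :: q) = oh P T A' (true :: q) := by
  by_cases hq : (true :: q).length < T
  · rw [oh_slv hq, oh_slv hq]
    unfold slv
    have hl : lvl q ≤ ℓ := lvl_le (by simp only [List.length_cons] at hq; omega)
    have e : ∀ Z : Oracle, rr P (lvl q) A Z = rr P (lvl q) A' Z := by
      classical
      intro Z
      funext s
      unfold rr
      by_cases hs : Star P (lvl q) s
      · rw [if_pos hs, if_pos hs]
      · rw [if_neg hs, if_neg hs, h s fun h1 => hs (h1.mono hl)]
    simp only [e]
  · rw [oh_ge (by omega), oh_ge (by omega)]

/-- only the first bits of the secrets matter -/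
theorem oh_cut {P : ℕ → List Bool} {ℓ : ℕ} : ∀ {T : ℕ} {A : Oracle}, T ≤ 2 ^ ℓ →
    oh (cut P ℓ) T A = oh P T A := by
  intro T
  induction T using Nat.strong_induction_on with
  | _ T ih =>
    intro A hT
    funext s
    by_cases h : s.length < T
    · match s with
      | [] => rw [oh_nil, oh_nil]
      | false :: s => rw [oh_data h, oh_data h]
      | true :: q =>
        rw [oh_slv h, oh_slv h]
        unfold slv
        have hl : q.length + 1 < T := by simpa using h
        have hl2 : lvl q ≤ ℓ := lvl_le (by omega)
        have e : ∀ z : Fin (2 ^ (q.length + 2)) → Bool,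
            oh (cut P ℓ) (q.length + 1) (rr (cut P ℓ) (lvl q) A (orc _ z)) =
              oh P (q.length + 1) (rr P (lvl q) A (orc _ z)) := by
          intro z
          rw [ih _ hl (by omega)]
          congr 1
          funext s
          exact rr_congr (star_cut hl2) rfl
        simp only [e]
    · rw [oh_ge (by omega), oh_ge (by omega)]

/-- the oracle -/
noncomputable def OK (W : Oracle) : Oracle := fun s => oh (PS.pwd W) (s.length + 1) W s

theorem OK_eq {W : Oracle} {T : ℕ} {s : List Bool} (h : s.length < T) :
    OK W s = oh (PS.pwd W) T W s := oh_trunc (Nat.lt_succ_self _) h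

theorem fr_OK (W : Oracle) : fr (OK W) = dat W := by
  funext s
  show OK W (false :: s) = _
  rw [OK_eq (T := s.length + 2) (by simp), oh_data (by simp)]

end Pool.Agent.W908.KS
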