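import Pool.Agent.W908.Defs

/-! Exponential hardness in the worst case, relative to an oracle. -/

set_option autoImplicit false

namespace Pool.Agent.W908.KS

open Pool.Agent.NPC Pool.Agent.H620R2.Gauge

/-- The language `L` is exponentially hard in the worst case relative to `A`, even with advice: for
every `D` computable in polynomial time relative to `A` there is `d > 0` such that for every
`n ≥ d` and every advice string `h` of length at most `2 ^ (n / d)` the answer `D ⟨x, h⟩` is wrong
for some string `x` of length `n`. (With `h` an encoding of a circuit with gates for `A` and `D`
the evaluation of circuits: at every large length `L` needs circuits of exponential size.) -/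
def ExpHard (A : Oracle) (L : Set (List Bool)) : Prop :=
  ∀ D : List Bool → List Bool, IsFP A D → ∃ d : ℕ, 0 < d ∧ ∀ n : ℕ, d ≤ n →
    ∀ h : List Bool, h.length ≤ 2 ^ (n / d) →
      ∃ x : List Bool, x.length = n ∧ ¬ (D (pairBits x h) = [true] ↔ x ∈ L)

end Pool.Agent.W908.KS
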