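import Pool.Agent.W908.K.K10
import Pool.Agent.W908.K.KDefs
import Pool.Agent.W908.H.H14

/-! A language in `UP` and `coUP` that needs circuits of exponential size. -/

set_option autoImplicit false

namespace Pool.Agent.W908.KS

open Pool.Agent.NPC Pool.Agent.H620R2.Gauge Pool.Agent.H622R2 Finset H568R2 Pool.Agent.H676
open Pool.Agent.W908 (IsUP fr)
open Pool.Agent.W908.SP (mem_strsOf' card_strsOf' unif_nn unif_sm)
open Pool.Agent.W908.PS (Rare pre_local qb qb_spec out_congr poly_le_pow pwd pwd_local length_pwd)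
open Pool.Agent.W908.HS (big_d)

/-- the language -/
def LK (W : Oracle) : Set (List Bool) := {z | W (kp z z.length) = true}

/-- the verifier, from the answers -/
def vrf (b : Bool) (p : List Bool × List Bool) : List Bool :=
  if (unpair p.1).1.length = (unpair p.1).2.length ∧ p.2 = [true, b] then [true] else []

theorem poly_vrf (b : Bool) : Poly (vrf b) := by
  have h1 : Poly (fun p : List Bool × List Bool => unpair p.1) :=
    poly_unpair.comp (Poly.fst Poly.id)
  exact Poly.ite (Poly.decide_and (Poly.decide_eq (Poly.length (Poly.fst h1))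
    (Poly.length (Poly.snd h1))) (Poly.decide_eq (Poly.snd Poly.id) (NPC.Poly.const _)))
    (NPC.Poly.const _) (NPC.Poly.const _)

/-- the questions of the verifier -/
def vq (y : List Bool) : List (List Bool) :=
  [false :: true :: pairBits (false :: (unpair y).1) (unpair y).2,
    false :: true :: pairBits (true :: (unpair y).1) (unpair y).2]

theorem poly_vq : Poly vq :=
  Poly.cons (Poly.cons (NPC.Poly.const false) (Poly.cons (NPC.Poly.const true)
    (poly_pairBits (Poly.cons (NPC.Poly.const false) (Poly.fst poly_unpair))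
      (Poly.snd poly_unpair)))) (Poly.cons (Poly.cons (NPC.Poly.const false)
    (Poly.cons (NPC.Poly.const true)
    (poly_pairBits (Poly.cons (NPC.Poly.const true) (Poly.fst poly_unpair))
      (Poly.snd poly_unpair)))) (NPC.Poly.const []))

theorem OK_kans {W : Oracle} (c : Bool) (w z : List Bool) :
    OK W (false :: true :: pairBits (c :: w) z) =
      (decide (w = key W z) && (!c || W (kp z z.length))) := by
  have h : fr (OK W) (true :: pairBits (c :: w) z) = dat W (true :: pairBits (c :: w) z) := by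
    rw [fr_OK]
  show fr (OK W) (true :: pairBits (c :: w) z) = _
  rw [h]
  show kans W (unpair (pairBits (c :: w) z)).1 (unpair (pairBits (c :: w) z)).2 = _
  rw [unpair_pairBits]
  rfl

theorem vrf_iff {W : Oracle} {b : Bool} {w x : List Bool} :
    vrf b (pairBits w x, (vq (pairBits w x)).map (OK W)) = [true] ↔
      w = key W x ∧ W (kp x x.length) = b := by
  unfold vrf vq
  simp only [unpair_pairBits, List.map_cons, List.map_nil]
  rw [OK_kans, OK_kans]
  constructor
  · intro h
    split_ifs at h with h1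
    obtain ⟨h2, h3⟩ := h1
    simp only [List.cons.injEq, and_true, Bool.not_false, Bool.true_or, Bool.and_true,
      decide_eq_true_eq, Bool.not_true, Bool.false_or] at h3
    obtain ⟨h3, h4⟩ := h3
    rw [decide_eq_true h3, Bool.true_and] at h4
    exact ⟨h3, h4⟩
  · rintro ⟨h1, h2⟩
    have h3 : w.length = x.length := by rw [h1, length_key]
    rw [if_pos]
    refine ⟨h3, ?_⟩
    rw [decide_eq_true h1, h2]
    simp

theorem isUP_aux (W : Oracle) (b : Bool) :
    IsUP (OK W) {x | W (kp x x.length) = b} := by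
  refine ⟨fun y => vrf b (y, (vq y).map (OK W)), Polynomial.X,
    IsFP.tt poly_vq (poly_vrf b), fun x => ?_, fun x w w' _ _ h h' => ?_⟩
  · constructor
    · intro h
      refine ⟨key W x, ?_, vrf_iff.2 ⟨rfl, h⟩⟩
      rw [length_key, Polynomial.eval_X]
    · rintro ⟨w, -, h⟩
      exact (vrf_iff.1 h).2
  · rw [(vrf_iff.1 h).1, (vrf_iff.1 h').1]

theorem isUP_LK (W : Oracle) : IsUP (OK W) (LK W) := isUP_aux W true

theorem isUP_LKc (W : Oracle) : IsUP (OK W) (LK W)ᶜ := by
  have h : (LK W)ᶜ = {x | W (kp x x.length) = false} := by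
    ext x
    simp [LK]
  rw [h]
  exact isUP_aux W false

theorem evK_local {W W' : Oracle} {M : Alg} {T n m κ r : ℕ} {h : List Bool} (hT : n + 1 ≤ T)
    (hn : n = m + κ + r) (hW : ∀ q : List Bool, q.length ≤ 3 * T + 2 → W q = W' q) :
    EvK M n m κ r T h W ↔ EvK M n m κ r T h W' := by
  unfold EvK
  have h1 : pwd W m = pwd W' m := pwd_local hW (by omega)
  rw [wd_local hW, h1]
  refine forall_congr' fun x => ?_
  rw [hW (kp (zx (pwd W' m) r x) n)]
  rw [length_kp, length_zx, length_pwd]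
  omega

/-- the language is exponentially hard in the worst case for the algorithm, with advice -/
def GoodKX (M : Alg) (W : Oracle) : Prop :=
  ∃ d : ℕ, 0 < d ∧ ∀ n, d ≤ n → ∀ h : List Bool, h.length ≤ 2 ^ (n / d) →
    ∃ x : List Bool, x.length = n ∧ ¬ (M.out (OK W) (pairBits x h) = some [true] ↔ x ∈ LK W)

theorem evK_of {W : Oracle} {M : Alg} {T n m κ r : ℕ} {h : List Bool} (hn : n = m + κ + r)
    (hT : (qb M).eval (2 * n + 1 + h.length) < T)
    (hx : ∀ x : List Bool, x.length = n →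
      (M.out (OK W) (pairBits x h) = some [true] ↔ x ∈ LK W)) : EvK M n m κ r T h W := by
  intro x
  have hl : (zx (pwd W m) r x).length = n := by rw [length_zx, length_pwd, hn]
  have h2 := hx _ hl
  have hl2 : (pairBits (zx (pwd W m) r x) h).length = 2 * n + 1 + h.length := by
    rw [A2.length_pairBits, hl]
    omega
  have h1 := (out_congr M (O := OK W) (O' := wd W T) (x := pairBits (zx (pwd W m) r x) h)
    fun q hq => by
      refine (OK_eq ?_).symm
      have := qb_spec M _ _ q hq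
      rw [hl2] at this
      omega).1
  rw [h1, h2]
  unfold LK
  rw [Set.mem_ofPred_eq, hl]

open Classical in
theorem xk_event {n m K T N : ℕ} (M : Alg) (hK : 0 < K) (hn : 16 ≤ n)
    (hT : T ≤ 2 ^ (n / 4)) (hp : M.p.eval (2 * n + 1 + 2 ^ m) ≤ 2 ^ (n / 4))
    (hH : 8 * 2 ^ m + 8 ≤ 2 ^ (n / 4)) (hQ : 4 * K * ((n + 1) * (n + 2)) ≤ 2 ^ (n / 4))
    (hN : 2 ^ (3 * n + 4) ≤ N) :
    Ex unif (fun a : Fin N → Bool => if ∃ c ≤ 2 ^ m, ∃ h ∈ strsOf c,
      EvK M n (n / 4) (n / 4) (n - n / 4 - n / 4) T h (orc N a) then (1 : ℝ) else 0) ≤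
      1 / (K * ((n + 1) * (n + 2))) := by
  obtain ⟨H, hHd⟩ : ∃ H, H = 2 ^ m := ⟨_, rfl⟩
  rw [← hHd] at hH hp ⊢
  obtain ⟨Y, hY⟩ : ∃ Y : List Bool → Oracle → Prop,
    Y = fun h W => EvK M n (n / 4) (n / 4) (n - n / 4 - n / 4) T h W := ⟨_, rfl⟩
  have hY' : ∀ h W, EvK M n (n / 4) (n / 4) (n - n / 4 - n / 4) T h W = Y h W := by
    intro h W
    rw [hY]
  simp only [hY']
  have h1 : ∀ a : Fin N → Bool, (if ∃ c ≤ H, ∃ h ∈ strsOf c, Y h (orc N a)
      then (1 : ℝ) else 0) ≤
      ∑ c ∈ range (H + 1), ∑ h ∈ strsOf c, if Y h (orc N a) then (1 : ℝ) else 0 := by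
    intro a
    have hnn : ∀ h : List Bool, (0 : ℝ) ≤ if Y h (orc N a)
      then (1 : ℝ) else 0 := fun h => by split_ifs <;> norm_num
    by_cases hE : ∃ c ≤ H, ∃ h ∈ strsOf c, Y h (orc N a)
    · rw [if_pos hE]
      obtain ⟨c, hc, h, hh, hj⟩ := hE
      refine le_trans ?_ (Finset.single_le_sum (f := fun c => ∑ h ∈ strsOf c,
        if Y h (orc N a) then (1 : ℝ) else 0)
        (fun c _ => Finset.sum_nonneg fun h _ => hnn h)
        (Finset.mem_range.2 (by omega : c < H + 1)))
      refine le_trans ?_ (Finset.single_le_sum (f := fun h =>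
        if Y h (orc N a) then (1 : ℝ) else 0)
        (fun h _ => hnn h) hh)
      rw [if_pos hj]
    · rw [if_neg hE]
      exact Finset.sum_nonneg fun c _ => Finset.sum_nonneg fun h _ => hnn h
  refine (Ex_mono unif_nn h1).trans ?_
  rw [Ex_sum]
  obtain ⟨E, hE⟩ : ∃ E : ℕ, E = 2 ^ (n / 4) := ⟨_, rfl⟩
  rw [← hE] at hT hp hH hQ
  have hE0 : 0 < E := by rw [hE]; positivity
  have hE1 : (0 : ℝ) < E := by exact_mod_cast hE0
  obtain ⟨B, hB⟩ : ∃ B : ℝ, B = (1 / 2) ^ E * Real.exp 1 := ⟨_, rfl⟩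
  have hB0 : 0 ≤ B := by rw [hB]; positivity
  have h2 : ∀ c ∈ range (H + 1), Ex unif (fun a : Fin N → Bool => ∑ h ∈ strsOf c,
      if Y h (orc N a) then (1 : ℝ) else 0) ≤ 2 ^ H * B := by
    intro c hc
    rw [Finset.mem_range, Nat.lt_succ_iff] at hc
    rw [Ex_sum]
    have h3 : ∀ h ∈ strsOf c, Ex unif (fun a : Fin N → Bool =>
        if Y h (orc N a) then (1 : ℝ) else 0) ≤ B := by
      intro h hh
      rw [mem_strsOf'] at hh
      have h4 : M.p.eval (2 * n + 1 + h.length) ≤ M.p.eval (2 * n + 1 + H) :=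
        eval_mono _ (by omega)
      have h5 := evK_prob (N := N) (n := n) (m := n / 4) (κ := n / 4) (r := n - n / 4 - n / 4)
        (T := T) (ℓ' := n / 4) (p := E) M h (by rw [← hE]; exact hT) le_rfl (by omega)
        (h4.trans hp) hN
      simp only [hY'] at h5
      refine h5.trans ?_
      rw [← hE, hB]
      apply mul_le_mul_of_nonneg_left _ (by positivity)
      have h6 : (2 : ℝ) ^ (n / 4) = E := by
        rw [hE]
        push_cast
        rfl
      rw [h6]
      have h7 : 1 + (E : ℝ) * E / 2 ^ n ≤ Real.exp (E * E / 2 ^ n) := by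
        have := Real.add_one_le_exp ((E : ℝ) * E / 2 ^ n)
        linarith
      calc (1 + (E : ℝ) * E / 2 ^ n) ^ E ≤ Real.exp (E * E / 2 ^ n) ^ E :=
            pow_le_pow_left₀ (by positivity) h7 _
        _ = Real.exp (E * (E * E / 2 ^ n)) := by rw [← Real.exp_nat_mul]
        _ ≤ Real.exp 1 := by
            apply Real.exp_le_exp.2
            rw [← mul_div_assoc, div_le_one (by positivity), ← h6, ← pow_add, ← pow_add]
            exact pow_le_pow_right₀ (by norm_num) (by omega)
    refine (Finset.sum_le_sum h3).trans ?_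
    rw [Finset.sum_const, nsmul_eq_mul, card_strsOf']
    apply mul_le_mul_of_nonneg_right _ hB0
    push_cast
    exact pow_le_pow_right₀ (by norm_num) hc
  refine (Finset.sum_le_sum h2).trans ?_
  rw [Finset.sum_const, Finset.card_range, nsmul_eq_mul]
  have h3 : ((H + 1 : ℕ) : ℝ) ≤ 2 ^ H := by
    have : H + 1 ≤ 2 ^ H := Nat.lt_two_pow_self
    exact_mod_cast this
  have h4 : (2 : ℝ) ^ H ≤ Real.exp H := by
    have h5 : (2 : ℝ) ≤ Real.exp 1 := by
      have := Real.add_one_le_exp (1 : ℝ)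
      linarith
    calc (2 : ℝ) ^ H ≤ Real.exp 1 ^ H := pow_le_pow_left₀ (by norm_num) h5 _
      _ = Real.exp H := by rw [← Real.exp_nat_mul, mul_one]
  have h5 : ((1 : ℝ) / 2) ^ E ≤ Real.exp (-(E / 2)) := by
    have h6 : Real.exp (1 / 2) ≤ 2 := by
      have h7 : Real.exp (1 / 2) * Real.exp (1 / 2) = Real.exp 1 := by
        rw [← Real.exp_add]
        norm_num
      have h8 := Real.exp_one_lt_d9
      have h9 := Real.exp_pos (1 / 2 : ℝ)
      nlinarith
    have h7 : (1 : ℝ) / 2 ≤ Real.exp (-(1 / 2)) := by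
      rw [Real.exp_neg, one_div 2, ← one_div (2 : ℝ), ← one_div (Real.exp _)]
      exact one_div_le_one_div_of_le (Real.exp_pos _) h6
    calc ((1 : ℝ) / 2) ^ E ≤ Real.exp (-(1 / 2)) ^ E := pow_le_pow_left₀ (by norm_num) h7 _
      _ = Real.exp (-(E / 2)) := by
          rw [← Real.exp_nat_mul]
          congr 1
          ring
  have hH0 := (Real.exp_pos (H : ℝ)).le
  have h2n : (0 : ℝ) ≤ 2 ^ H := by positivity
  have h6 : (8 * H + 8 : ℝ) ≤ E := by exact_mod_cast hH
  have h7 : (4 * K * ((n + 1) * (n + 2)) : ℝ) ≤ E := by exact_mod_cast hQ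
  calc ((H + 1 : ℕ) : ℝ) * (2 ^ H * B)
      ≤ Real.exp H * (Real.exp H * (Real.exp (-(E / 2)) * Real.exp 1)) := by
        apply mul_le_mul (h3.trans h4) _ (by positivity) hH0
        apply mul_le_mul h4 _ hB0 hH0
        rw [hB]
        exact mul_le_mul_of_nonneg_right h5 (Real.exp_pos _).le
    _ = Real.exp (H + (H + (-(E / 2) + 1))) := by
        rw [← Real.exp_add, ← Real.exp_add, ← Real.exp_add]
    _ ≤ Real.exp (-(E / 4)) := by
        apply Real.exp_le_exp.2
        linarith
    _ ≤ 1 / (K * ((n + 1) * (n + 2))) := by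
        rw [Real.exp_neg, ← one_div]
        apply one_div_le_one_div_of_le
        · have : (0 : ℝ) < K := by exact_mod_cast hK
          positivity
        · have := Real.add_one_le_exp ((E : ℝ) / 4)
          linarith

theorem rare_goodKX (M : Alg) : Rare {W | ¬ GoodKX M W} := by
  classical
  intro K hK
  obtain ⟨Q, hQ⟩ : ∃ Q : Polynomial ℕ, Q = (qb M + 2 * Polynomial.X + 2) + M.p +
      (8 * Polynomial.X + 8) +
      Polynomial.C (4 * K) * ((Polynomial.X + 1) * (Polynomial.X + 2)) := ⟨_, rfl⟩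
  obtain ⟨d, hd16, hd⟩ := big_d Q
  have hQe : ∀ y, Q.eval y = ((qb M).eval y + 2 * y + 2) + M.p.eval y + (8 * y + 8) +
      4 * K * ((y + 1) * (y + 2)) := by
    intro y
    rw [hQ]
    simp
  obtain ⟨T, hT⟩ : ∃ T : ℕ → ℕ, T = fun n => (qb M).eval (2 * n + 1 + 2 ^ (n / d)) +
    2 * (2 * n + 1 + 2 ^ (n / d)) + 2 := ⟨_, rfl⟩
  have hTe : ∀ n, T n = (qb M).eval (2 * n + 1 + 2 ^ (n / d)) +
    2 * (2 * n + 1 + 2 ^ (n / d)) + 2 := fun n => by rw [hT]
  refine ⟨fun n => 2 ^ (3 * T n + 2 + 1), fun n a => d ≤ n ∧ ∃ c ≤ 2 ^ (n / d), ∃ h ∈ strsOf c,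
      EvK M n (n / 4) (n / 4) (n - n / 4 - n / 4) (T n) h (orc _ a), fun n => ?_,
      fun W hW => ?_⟩
  · by_cases hn : d ≤ n
    · have h := hd n hn
      rw [hQe] at h
      have hpos : 0 < 2 ^ (n / d) := by positivity
      obtain ⟨y, hy⟩ : ∃ y, y = 2 * n + 1 + 2 ^ (n / d) := ⟨_, rfl⟩
      have hTn := hTe n
      have hyn : n ≤ y := by omega
      have hy2 : 2 ^ (n / d) ≤ y := by omega
      rw [← hy] at h hTn
      have hK2 : 4 * K * ((n + 1) * (n + 2)) ≤ 4 * K * ((y + 1) * (y + 2)) := by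
        apply Nat.mul_le_mul_left
        apply Nat.mul_le_mul <;> omega
      have hTy : 2 * y + 2 ≤ T n := by omega
      have h1 := xk_event (N := 2 ^ (3 * T n + 2 + 1)) (n := n) (m := n / d) (T := T n) M hK
        (by omega) (by omega) (by rw [← hy]; omega) (by omega) (by omega)
        (Nat.pow_le_pow_right (by norm_num) (by omega))
      simp only [hn, true_and]
      exact h1
    · simp only [hn, false_and, if_false]
      rw [Ex_const unif_sm]
      positivity
  · by_contra hcon
    push Not at hcon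
    refine hW ⟨d, by omega, fun n hn h hh => ?_⟩
    by_contra hx
    push Not at hx
    have hTn := hTe n
    have h0 : (qb M).eval (2 * n + 1 + h.length) ≤ (qb M).eval (2 * n + 1 + 2 ^ (n / d)) :=
      eval_mono _ (by omega)
    refine hcon n hn h.length hh h (mem_strsOf _) ?_
    rw [evK_local (W' := W) (by omega) (by omega) (fun q hq => pre_local W le_rfl hq)]
    refine evK_of (by omega) (by omega) fun x hxl => ?_
    have := hx x hxl
    tauto

end Pool.Agent.W908.KS
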