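import Pool.Agent.W908.K.K8
import Pool.Agent.W908.K.K11

/-! All together. -/

set_option autoImplicit false

namespace Pool.Agent.W908.KS

open Pool.Agent.NPC Pool.Agent.H620R2.Gauge Finset H568R2 Pool.Agent.H676
open Pool.Agent.W908 (IsUP)
open Pool.Agent.W908.RS (EasyOnSamples)
open Pool.Agent.W908.PS (exists_good)
open Pool.Agent.H591R3.PHG (IsSig)

theorem exists_WK : ∃ W : Oracle, (∀ θ G q c, GoodK θ G q c W) ∧ ∀ M, GoodKX M W := by
  have h1 := CC.poly_countable
  obtain ⟨W, hW⟩ := exists_good (Θ := (Par × Alg × Polynomial ℕ × ℕ) ⊕ Alg)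
    (fun θ => match θ with
      | Sum.inl t => {W | ¬ GoodK t.1 t.2.1 t.2.2.1 t.2.2.2 W}
      | Sum.inr M => {W | ¬ GoodKX M W})
    (fun θ => match θ with
      | Sum.inl t => rare_goodK t.1 t.2.1 t.2.2.1 t.2.2.2
      | Sum.inr M => rare_goodKX M)
  refine ⟨W, fun θ G q c => ?_, fun M => ?_⟩
  · exact not_not.1 (hW (Sum.inl (θ, G, q, c)))
  · exact not_not.1 (hW (Sum.inr M))

theorem expHard {W : Oracle} (hW : ∀ M, GoodKX M W) : ExpHard (OK W) (LK W) := by
  rintro D ⟨M, hM⟩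
  obtain ⟨d, hd, h⟩ := hW M
  refine ⟨d, hd, fun n hn a ha => ?_⟩
  have h1 := h n hn a ha
  simp only [hM, Option.some.injEq] at h1
  exact h1

/-- A relativized world where the polynomial hierarchy is easy on average (with errors), and some
language in `UP ∩ coUP` needs circuits of exponential size. -/
theorem mainK : ∃ O : Oracle,
    (∀ (k : ℕ) (L : Set (List Bool)), IsSig O k L → ∀ F : List Bool → List Bool, IsFP O F →
      ∀ (q : Polynomial ℕ) (c : ℕ), EasyOnSamples O L F q c) ∧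
    ∃ L : Set (List Bool), IsUP O L ∧ IsUP O Lᶜ ∧ ExpHard O L := by
  obtain ⟨W, h2, h3⟩ := exists_WK
  exact ⟨OK W, fun k L hL F hF q c => easyK h2 hL hF q c,
    LK W, isUP_LK W, isUP_LKc W, expHard h3⟩

end Pool.Agent.W908.KS
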