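import Pool.Agent.W908.K.K2

/-! A formula whose input is computed by a sampler; answers that depend on several bits. -/

set_option autoImplicit false

namespace Pool.Agent.W908.KS

open Pool.Agent.NPC Pool.Agent.H620R2.Gauge Finset H568R2 Pool.Agent.H676
open Pool.Agent.W908.SP (Fo Qo bv unif_nn unif_sm Ex_owr Ex_unif_av idx_inj sn sens sens_bound
  Qo_comp qs length_qs)
open Pool.Agent.W908.HS (fo xs ob ob_spec length_xs tk length_tk gv gv_eq)

section

variable {I : Type} [Fintype I] [DecidableEq I]

theorem dtr_comp {D : ℕ} : ∀ {e : ℕ} {g : (I → Bool) → Bool} {F : Bool → (I → Bool) → Bool},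
    DTr e g → (∀ c, DTr D (F c)) → DTr (e + D) (fun a => F (g a) a) := by
  intro e
  induction e with
  | zero =>
    intro g F hg hF
    obtain ⟨c, hc⟩ := hg
    rw [Nat.zero_add]
    refine (congrArg (DTr D) (funext fun a => ?_)).mp (hF c)
    rw [hc]
  | succ e ih =>
    intro g F hg hF
    rcases hg with ⟨c, hc⟩ | ⟨i, hi⟩
    · refine (congrArg (DTr (e + 1 + D)) (funext fun a => ?_)).mp ((hF c).mono (by omega))
      rw [hc]
    · have e1 : e + 1 + D = (e + D) + 1 := by omega
      rw [e1]
      exact Or.inr ⟨i, fun b => ih (F := fun c a => F c (Function.update a i b)) (hi b)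
        fun c => DTr_update (hF c) i b⟩

theorem dtr_runK (M : Alg) {e : ℕ} (Φ : (I → Bool) → Oracle)
    (hΦ : ∀ q, DTr e (fun a => Φ a q)) (y : List Bool) : ∀ (n : ℕ) (acc : List Bool),
    DTr (n * e) (fun a : I → Bool => decide (M.run (Φ a) y n acc = some [true])) := by
  intro n
  induction n with
  | zero => intro acc; exact DTr.const ⟨false, fun a => by simp [Alg.run]⟩
  | succ n ih =>
    intro acc
    rcases hq : M.D (pairBits y acc) with _ | ⟨c, q⟩
    · exact DTr.const ⟨false, fun a => by simp [Alg.run, hq]⟩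
    · cases c with
      | true => exact DTr.const ⟨decide (q = [true]), fun a => by simp [Alg.run, hq]⟩
      | false =>
        have h1 := dtr_comp (F := fun c a => decide (M.run (Φ a) y n (acc ++ [c]) = some [true]))
          (hΦ q) fun c => ih (acc ++ [c])
        have e1 : (n + 1) * e = e + n * e := by ring
        rw [e1]
        refine (congrArg (DTr (e + n * e)) (funext fun a => ?_)).mp h1
        simp [Alg.run, hq]

/-- a computation after the run of an algorithm -/
theorem dtr_bindK (M : Alg) {e : ℕ} (Φ : (I → Bool) → Oracle)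
    (hΦ : ∀ q, DTr e (fun a => Φ a q)) (y : List Bool) {d : ℕ}
    (K : List Bool → (I → Bool) → Bool) {A₀ L : ℕ}
    (hD : ∀ a : List Bool, a.length ≤ A₀ → (M.D (pairBits y a)).length ≤ L)
    (hK : ∀ v : List Bool, v.length ≤ L → DTr d (K v)) :
    ∀ (n : ℕ) (acc : List Bool), n + acc.length ≤ A₀ →
      DTr (n * e + d) (fun a : I → Bool => K ((M.run (Φ a) y n acc).getD []) a) := by
  intro n
  induction n with
  | zero =>
    intro acc _
    exact (hK [] (by simp)).mono (by omega)
  | succ n ih =>
    intro acc hacc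
    have h0 := hD acc (by omega)
    rcases hq : M.D (pairBits y acc) with _ | ⟨c, q⟩
    · have h1 := (hK [] (by simp)).mono (show d ≤ (n + 1) * e + d by omega)
      refine (congrArg (DTr ((n + 1) * e + d)) (funext fun a => ?_)).mp h1
      simp [Alg.run, hq]
    · rw [hq, List.length_cons] at h0
      cases c with
      | true =>
        have h1 := (hK q (by omega)).mono (show d ≤ (n + 1) * e + d by omega)
        refine (congrArg (DTr ((n + 1) * e + d)) (funext fun a => ?_)).mp h1
        simp [Alg.run, hq]
      | false =>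
        have h1 := dtr_comp (F := fun c a => K ((M.run (Φ a) y n (acc ++ [c])).getD []) a)
          (hΦ q) fun c => ih (acc ++ [c]) (by
            rw [List.length_append, List.length_singleton]; omega)
        have e1 : (n + 1) * e + d = e + (n * e + d) := by ring
        rw [e1]
        refine (congrArg (DTr (e + (n * e + d))) (funext fun a => ?_)).mp h1
        simp [Alg.run, hq]

theorem gv_sensK {θ : Par} {G : Alg} {y : List Bool} {c t m e : ℕ} (Φ : (I → Bool) → Oracle)
    (hΦ : ∀ q, DTr e (fun a => Φ a q)) (ht : 1 ≤ t)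
    (hm : m = θ.p.eval ((ob G).eval y.length))
    (hc : Fintype.card I = 2 ^ c)
    (h1 : G.p.eval y.length * e +
      θ.M.p.eval (θ.k * (2 * m + 1) + θ.k + (ob G).eval y.length) * e ≤ t)
    (h2 : c + θ.k + (θ.k * (2 * m + 1) + 2) ≤ t + 1) :
    sens (fun b => gv θ G y (Φ b)) ≤ (24 * t) ^ θ.k * (t + 1) := by
  have e' : (fun b => gv θ G y (Φ b)) =
      QF m (fun y' b => HS.lf θ G y y' (Φ b)) θ.k true [] := by
    funext b
    rw [gv_eq hm.ge]
    exact Pool.Agent.H591R3.PHG.QF_comp m (HS.lf θ G y) Φ θ.k true [] b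
  rw [e']
  refine sens_bound (c := c) ht _ _ (fun y' hy' => ?_) hc (by
    simp only [List.length_nil]; omega)
  simp only [List.length_nil, Nat.zero_add] at hy'
  have h3 := dtr_bindK G Φ hΦ y (d := θ.M.p.eval (θ.k * (2 * m + 1) + θ.k +
      (ob G).eval y.length) * e)
    (fun x b => Fo θ.M (tk (θ.p.eval x.length) θ.k x y') (Φ b)) (A₀ := G.p.eval y.length)
    (L := (ob G).eval y.length) (ob_spec G y) (fun x hx => by
      have h4 := dtr_runK θ.M Φ hΦ (tk (θ.p.eval x.length) θ.k x y')
        (θ.M.p.eval (tk (θ.p.eval x.length) θ.k x y').length) []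
      refine h4.mono (Nat.mul_le_mul_right _ (eval_mono _ ?_))
      have h5 := length_tk (θ.p.eval x.length) x θ.k y'
      omega) (G.p.eval y.length) [] (by simp)
  exact h3.mono h1

end

end Pool.Agent.W908.KS
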