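import Pool.Agent.W908.K.K5

/-! The error probability at one sample, and the answer of the solver. -/

set_option autoImplicit false

namespace Pool.Agent.W908.KS

open Pool.Agent.NPC Pool.Agent.H620R2.Gauge Finset H568R2 Pool.Agent.H676
open Pool.Agent.W908 (fr mach)
open Pool.Agent.W908.SP (Fo Qo bv unif_nn unif_sm Ex_owr Ex_unif_av idx_inj sn sens
  Qo_comp qs length_qs Qo_local)
open Pool.Agent.W908.PS (pwd ppos ppos_inj length_ppos length_pwd idx_lt_pow Ex_comm qq qb
  qb_spec out_congr pwd_local)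
open Pool.Agent.H591R3.PHG.Proj (owr owr_e owr_off owr_owr)
open Pool.Agent.W908.HS (cut fo xs gv Ex_nn Ex_orc rb rb_spec FB FB_eval fo_congr qz mkP lvl pd)

open Classical in
theorem er_prob {N T ℓ ℓ' : ℕ} (hN : 2 ^ (3 * T + 3) ≤ N) (hℓ : ℓ' ≤ ℓ) (hT : T ≤ 2 ^ ℓ')
    (θ : Par) (G : Alg) (y : List Bool) (hq : (qb G).eval y.length ≤ T) {Sb : ℝ}
    (hS : ∀ (P : ℕ → List Bool) (β : Fin N → Bool), sens (gt P T ℓ' θ G y β) ≤ Sb) :
    Ex unif (fun a : Fin N → Bool => if Er (orc N a) N T ℓ θ G y then (1 : ℝ) else 0) ≤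
      2 * (((T : ℝ) + 1) ^ 2 * (1 / 2) ^ (ℓ - ℓ') * (((G.p.eval y.length : ℕ) : ℝ) + Sb)) := by
  have hT2 : T ≤ 2 ^ ℓ := hT.trans (Nat.pow_le_pow_right (by norm_num) hℓ)
  have h1 : ∀ a : Fin N → Bool, (if Er (orc N a) N T ℓ θ G y then (1 : ℝ) else 0) ≤
      2 * ((if ∃ q ∈ qq G (wd (orc N a) T) y, Star (pwd (orc N a)) ℓ q then (1 : ℝ) else 0) +
        Ex unif (fun z : Fin N → Bool =>
          if gv θ G y (wn (orc N a) T ℓ (orc N z)) ≠ gv θ G y (wd (orc N a) T)
          then (1 : ℝ) else 0)) := by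
    intro a
    refine er_le.trans (mul_le_mul_of_nonneg_left ?_ (by norm_num))
    refine (Ex_mono unif_nn fun z => split_le).trans ?_
    rw [Ex_add]
    refine add_le_add ?_ le_rfl
    refine (Ex_mono unif_nn (G := fun _ => if ∃ q ∈ qq G (wd (orc N a) T) y,
      Star (pwd (orc N a)) ℓ q then (1 : ℝ) else 0) fun z => ?_).trans
      (le_of_eq (Ex_const unif_sm _))
    by_cases h2 : xs G y (wn (orc N a) T ℓ (orc N z)) ≠ xs G y (wd (orc N a) T)
    · rw [if_pos h2, if_pos (xs_ne hT2 h2)]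
    · rw [if_neg h2]
      split_ifs <;> norm_num
  refine (Ex_mono unif_nn h1).trans ?_
  rw [Ex_smul, Ex_add]
  have h2 := samp_prob hN hℓ hT G y hq
  have h3 := form_prob hN hℓ hT θ G y hS
  have h4 : ((T : ℝ) + 1) ^ 2 * (1 / 2) ^ (ℓ - ℓ') * (((G.p.eval y.length : ℕ) : ℝ) + Sb) =
      ((G.p.eval y.length : ℕ) : ℝ) * (((T : ℝ) + 1) ^ 2 * (1 / 2) ^ (ℓ - ℓ')) +
        ((T : ℝ) + 1) ^ 2 * (1 / 2) ^ (ℓ - ℓ') * Sb := by ring
  rw [h4]
  linarith

/-! ### Locality -/

theorem wd_local {W W' : Oracle} {T : ℕ} (h : ∀ q : List Bool, q.length ≤ 3 * T + 2 → W q = W' q) :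
    wd W T = wd W' T := by
  unfold wd
  exact oh_congr (fun m hm => pwd_local h (by omega)) fun s hs => h _ (by omega)

theorem wn_local {W W' Z Z' : Oracle} {T ℓ : ℕ}
    (h : ∀ q : List Bool, q.length ≤ 3 * T + 2 → W q = W' q)
    (hZ : ∀ q : List Bool, q.length < T → Z q = Z' q) :
    wn W T ℓ Z = wn W' T ℓ Z' := by
  classical
  unfold wn
  have hp : ∀ m < T, pwd W m = pwd W' m := fun m hm => pwd_local h (by omega)
  refine oh_congr hp fun s hs => ?_
  unfold rr
  have e := star_congr (ℓ := ℓ) hp hs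
  by_cases h1 : Star (pwd W) ℓ (false :: s)
  · rw [if_pos h1, if_pos (e.1 h1), hZ _ hs]
  · rw [if_neg h1, if_neg fun h2 => h1 (e.2 h2), h _ (by omega)]

theorem er_local {W W' : Oracle} {N T ℓ : ℕ} {θ : Par} {G : Alg} {y : List Bool}
    (h : ∀ q : List Bool, q.length ≤ 3 * T + 2 → W q = W' q) (hE : Er W N T ℓ θ G y) :
    Er W' N T ℓ θ G y := by
  unfold Er at hE ⊢
  rw [wd_local h] at hE
  have e : ∀ z : Fin N → Bool, wn W T ℓ (orc N z) = wn W' T ℓ (orc N z) := fun z =>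
    wn_local h fun _ _ => rfl
  simp only [e] at hE
  exact hE

/-! ### The answer of the solver -/

theorem OK_qz {W : Oracle} {e x p : List Bool} {N T : ℕ}
    (hT : (FB (mkP e)).eval x.length < T) (hp : T ≤ p.length) (hN : 2 ^ T ≤ N) :
    OK W (true :: qz e x p) = decide (1 / 2 ≤ Ex unif (fun z : Fin N → Bool =>
      bv (fo (mkP e) x (wn W T (Nat.log 2 p.length) (orc N z))))) := by
  have hlen : p.length ≤ (qz e x p).length := by
    unfold qz
    rw [A2.length_pairBits, A2.length_pairBits]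
    omega
  have h1 : OK W (true :: qz e x p) = slv (pwd W) (oh (pwd W) ((qz e x p).length + 1)) W
      (2 ^ ((qz e x p).length + 2)) (qz e x p) := by
    unfold OK
    exact oh_slv (by simp)
  rw [h1]
  unfold slv pd
  have e1 : (unpair (qz e x p)).1 = e := by simp only [qz, unpair_pairBits]
  have e2 : (unpair (unpair (qz e x p)).2).1 = x := by simp only [qz, unpair_pairBits]
  have e3 : lvl (qz e x p) = Nat.log 2 p.length := by
    simp only [lvl, qz, unpair_pairBits]
  rw [e1, e2, e3]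
  have e4 : ∀ A : Oracle, fo (mkP e) x (oh (pwd W) ((qz e x p).length + 1) A) =
      fo (mkP e) x (oh (pwd W) T A) := by
    intro A
    refine fo_congr le_rfl fun q hq => ?_
    exact oh_trunc (by omega) (by omega)
  have e5 := Ex_orc (N := 2 ^ ((qz e x p).length + 2)) (N' := N) (T := T)
    (Nat.pow_le_pow_right (by norm_num) (by omega)) hN
    (fun Z => bv (fo (mkP e) x (wn W T (Nat.log 2 p.length) Z))) (fun Z Z' hZ => by
      rw [wn_local (fun _ _ => rfl) hZ])
  rw [← e5]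
  congr 3
  funext z
  rw [e4]
  rfl

/-- the value of the formula -/
theorem fo_OK {W : Oracle} {θ : Par} {x : List Bool} {T : ℕ}
    (hT : (FB θ).eval x.length < T) : fo θ x (OK W) = fo θ x (wd W T) := by
  refine fo_congr le_rfl fun q hq => ?_
  exact OK_eq (by omega)

theorem xs_OK {W : Oracle} {G : Alg} {y : List Bool} {T : ℕ}
    (hT : (qb G).eval y.length < T) : xs G y (OK W) = xs G y (wd W T) := by
  unfold xs
  rw [(out_congr G (O := OK W) (O' := wd W T) fun q hq =>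
    (OK_eq (by have := qb_spec G _ _ q hq; omega)).symm).1]

end Pool.Agent.W908.KS
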