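import Pool.Agent.W908.K.K8
import Pool.Agent.W908.H.H12

/-! Many hidden bits behind keys cannot all be found. -/

set_option autoImplicit false

namespace Pool.Agent.W908.KS

open Pool.Agent.NPC Pool.Agent.H620R2.Gauge Finset H568R2 Pool.Agent.H676
open Pool.Agent.W908.SP (qs length_qs)
open Pool.Agent.W908.PS (qq out_congr)
open Pool.Agent.W908.HS (sg sg_sq)

theorem qs_prefix (M : Alg) {O O' : Oracle} (x : List Bool) : ∀ (n : ℕ) (a : List Bool) (s : ℕ),
    (∀ t < s, ∀ q, (qs M O x n a)[t]? = some q → O' q = O q) →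
    (qs M O' x n a)[s]? = (qs M O x n a)[s]? := by
  intro n
  induction n with
  | zero => intro a s _; simp [qs]
  | succ n ih =>
    intro a s h
    rcases hD : M.D (pairBits x a) with _ | ⟨c, q'⟩
    · simp [qs, hD]
    · cases c with
      | true => simp [qs, hD]
      | false =>
        cases s with
        | zero => simp [qs, hD]
        | succ s =>
          have h0 : O' q' = O q' := h 0 (by omega) q' (by simp [qs, hD])
          simp only [qs, hD, List.getElem?_cons_succ, h0]
          exact ih _ s fun t ht q hq => h (t + 1) (by omega) q (by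
            simp only [qs, hD, List.getElem?_cons_succ]
            exact hq)

variable {X : Type} [Fintype X] [DecidableEq X] {n : ℕ}

/-- the answers depend on the keys `k` and on the bits `b` through tests only -/
structure Keyed (O : (X → (Fin n → Bool)) → (X → Bool) → Oracle)
    (τ : List Bool → Option (X × (Fin n → Bool))) : Prop where
  free : ∀ q, τ q = none → ∀ k b k' b', O k b q = O k' b' q
  test : ∀ q x w, τ q = some (x, w) → ∃ f : Bool → Bool, ∀ k b,
    O k b q = (decide (k x = w) && f (b x))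

/-- the run for `x` asks a question with the key of `x'` -/
def Hit (M : Alg) (y : X → List Bool) (O : (X → (Fin n → Bool)) → (X → Bool) → Oracle)
    (τ : List Bool → Option (X × (Fin n → Bool))) (x x' : X) (k : X → (Fin n → Bool))
    (b : X → Bool) : Prop := ∃ q ∈ qq M (O k b) (y x), τ q = some (x', k x')

/-- all keys of `S` are met by the runs of `S` -/
def AllHit (M : Alg) (y : X → List Bool) (O : (X → (Fin n → Bool)) → (X → Bool) → Oracle)
    (τ : List Bool → Option (X × (Fin n → Bool))) (S : Finset X) (k : X → (Fin n → Bool))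
    (b : X → Bool) : Prop := ∀ x' ∈ S, ∃ x ∈ S, Hit M y O τ x x' k b

section

variable {M : Alg} {y : X → List Bool} {O : (X → (Fin n → Bool)) → (X → Bool) → Oracle}
  {τ : List Bool → Option (X × (Fin n → Bool))}

theorem run_flip (hK : Keyed O τ) {x x' : X} {k : X → (Fin n → Bool)} {b : X → Bool} (c : Bool)
    (h : ¬ Hit M y O τ x x' k b) : M.out (O k (Function.update b x' c)) (y x) =
      M.out (O k b) (y x) ∧ qq M (O k (Function.update b x' c)) (y x) = qq M (O k b) (y x) := by
  refine out_congr M fun q hq => ?_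
  cases hτ : τ q with
  | none => exact hK.free q hτ _ _ _ _
  | some p =>
    obtain ⟨x'', w⟩ := p
    obtain ⟨f, hf⟩ := hK.test q x'' w hτ
    rw [hf, hf]
    by_cases hw : k x'' = w
    · have hne : x'' ≠ x' := by
        rintro rfl
        exact h ⟨q, hq, by rw [hτ, hw]⟩
      rw [Function.update_of_ne hne]
    · rw [decide_eq_false hw]
      simp

theorem hit_flip (hK : Keyed O τ) {x x' x'' : X} {k : X → (Fin n → Bool)} {b : X → Bool} (c : Bool)
    (h : ¬ Hit M y O τ x x' k b) : Hit M y O τ x x'' k (Function.update b x' c) ↔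
      Hit M y O τ x x'' k b := by
  unfold Hit
  rw [(run_flip hK c h).2]

/-- the question number `s` of the run for `x` meets the key of `x'` -/
def At (M : Alg) (y : X → List Bool) (O : (X → (Fin n → Bool)) → (X → Bool) → Oracle)
    (τ : List Bool → Option (X × (Fin n → Bool))) (b : X → Bool) (k : X → (Fin n → Bool))
    (x' x : X) (s : ℕ) : Prop := ∃ q, (qq M (O k b) (y x))[s]? = some q ∧ τ q = some (x', k x')

/-- the places of the first hits determine the keys -/
theorem at_inj (hK : Keyed O τ) {S : Finset X} {b : X → Bool} {k k' : X → (Fin n → Bool)}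
    (hoff : ∀ x, x ∉ S → k x = k' x) (xx : X → X) (ss : X → ℕ) (hxx : ∀ x ∈ S, xx x ∈ S)
    (h1 : ∀ x ∈ S, At M y O τ b k x (xx x) (ss x)) (h1' : ∀ x ∈ S, At M y O τ b k' x (xx x) (ss x))
    (h2 : ∀ x' ∈ S, ∀ x ∈ S, ∀ t, At M y O τ b k x' x t → ss x' ≤ t)
    (h2' : ∀ x' ∈ S, ∀ x ∈ S, ∀ t, At M y O τ b k' x' x t → ss x' ≤ t) : k = k' := by
  by_contra hne
  obtain ⟨x₀, hx₀⟩ := Function.ne_iff.1 hne
  have hx₀S : x₀ ∈ S := by
    by_contra h
    exact hx₀ (hoff x₀ h)
  obtain ⟨x', hx', hmin⟩ := Finset.exists_min_image (S.filter (fun x => k x ≠ k' x)) ss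
    ⟨x₀, Finset.mem_filter.2 ⟨hx₀S, hx₀⟩⟩
  rw [Finset.mem_filter] at hx'
  obtain ⟨hx'S, hx'ne⟩ := hx'
  have key : ∀ t, t ≤ ss x' → (qq M (O k' b) (y (xx x')))[t]? =
      (qq M (O k b) (y (xx x')))[t]? := by
    intro t
    induction t using Nat.strong_induction_on with
    | _ t ih =>
      intro ht
      refine qs_prefix M (y (xx x')) _ [] t fun t' ht' q hq => ?_
      have hq' := ih t' ht' (by omega)
      have hqk : (qq M (O k b) (y (xx x')))[t']? = some q := hq
      rw [hqk] at hq'
      cases hτ : τ q with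
      | none => exact hK.free q hτ _ _ _ _
      | some p =>
        obtain ⟨x'', w⟩ := p
        obtain ⟨f, hf⟩ := hK.test q x'' w hτ
        rw [hf, hf]
        by_cases he : k x'' = k' x''
        · rw [he]
        · have hS : x'' ∈ S := by
            by_contra h
            exact he (hoff x'' h)
          have h3 := hmin x'' (Finset.mem_filter.2 ⟨hS, he⟩)
          have hw : k x'' ≠ w := by
            rintro rfl
            have := h2 x'' hS (xx x') (hxx x' hx'S) t' ⟨q, hqk, hτ⟩
            omega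
          have hw' : k' x'' ≠ w := by
            rintro rfl
            have := h2' x'' hS (xx x') (hxx x' hx'S) t' ⟨q, hq', hτ⟩
            omega
          rw [decide_eq_false hw, decide_eq_false hw', Bool.false_and]
  obtain ⟨q, hq, hτ⟩ := h1 x' hx'S
  obtain ⟨q', hq', hτ'⟩ := h1' x' hx'S
  rw [key _ le_rfl, hq, Option.some.injEq] at hq'
  rw [← hq', hτ, Option.some.injEq, Prod.mk.injEq] at hτ'
  exact hx'ne hτ'.2

open Classical in
theorem card_allHit (hK : Keyed O τ) (S : Finset X) (b : X → Bool) {p : ℕ}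
    (hp : ∀ x, M.p.eval (y x).length ≤ p) :
    (univ.filter (fun k : X → (Fin n → Bool) => AllHit M y O τ S k b)).card ≤
      (2 ^ n) ^ (Fintype.card X - S.card) * (S.card * p) ^ S.card := by
  rw [← Fintype.card_subtype]
  have hloc : ∀ (k : {k : X → (Fin n → Bool) // AllHit M y O τ S k b}) (x' : {x // x ∈ S}),
      ∃ l : {x // x ∈ S} × Fin p, At M y O τ b k.1 x'.1 l.1.1 l.2.1 ∧
        ∀ x ∈ S, ∀ t, At M y O τ b k.1 x'.1 x t → l.2.1 ≤ t := by
    rintro ⟨k, hk⟩ ⟨x', hx'⟩
    have hex : ∃ t, ∃ x ∈ S, At M y O τ b k x' x t := by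
      obtain ⟨x, hx, q, hq, hτ⟩ := hk x' hx'
      obtain ⟨t, ht⟩ := List.mem_iff_getElem?.1 hq
      exact ⟨t, x, hx, q, ht, hτ⟩
    obtain ⟨x, hx, hat⟩ := Nat.find_spec hex
    have hlt : Nat.find hex < p := by
      obtain ⟨q, hq, -⟩ := hat
      have h1 := (List.getElem?_eq_some_iff.1 hq).1
      have h2 : (qq M (O k b) (y x)).length ≤ M.p.eval (y x).length := length_qs _ _ _ _ _
      have h3 := hp x
      omega
    exact ⟨(⟨x, hx⟩, ⟨Nat.find hex, hlt⟩), hat, fun x₁ hx₁ t ht =>
      Nat.find_min' hex ⟨x₁, hx₁, ht⟩⟩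
  choose loc hl1 hl2 using hloc
  have hinj : Function.Injective (fun k : {k : X → (Fin n → Bool) // AllHit M y O τ S k b} =>
      ((fun x : {x // x ∉ S} => k.1 x.1, loc k) :
        ({x // x ∉ S} → (Fin n → Bool)) × ({x // x ∈ S} → {x // x ∈ S} × Fin p))) := by
    intro k k' hkk
    rw [Prod.mk.injEq] at hkk
    obtain ⟨e1, e2⟩ := hkk
    apply Subtype.ext
    refine at_inj (M := M) (y := y) hK (S := S) (b := b) (fun x hx => congrFun e1 ⟨x, hx⟩)
      (fun x => if h : x ∈ S then (loc k ⟨x, h⟩).1.1 else x)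
      (fun x => if h : x ∈ S then (loc k ⟨x, h⟩).2.1 else 0) ?_ ?_ ?_ ?_ ?_
    · intro x hx
      simp only [hx, dif_pos]
      exact (loc k ⟨x, hx⟩).1.2
    · intro x hx
      simp only [hx, dif_pos]
      exact hl1 k ⟨x, hx⟩
    · intro x hx
      simp only [hx, dif_pos]
      rw [e2]
      exact hl1 k' ⟨x, hx⟩
    · intro x' hx' x hx t ht
      simp only [hx', dif_pos]
      exact hl2 k ⟨x', hx'⟩ x hx t ht
    · intro x' hx' x hx t ht
      simp only [hx', dif_pos]
      rw [e2]
      exact hl2 k' ⟨x', hx'⟩ x hx t ht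
  have h1 := Fintype.card_le_of_injective _ hinj
  refine h1.trans (le_of_eq ?_)
  rw [Fintype.card_prod, Fintype.card_fun, Fintype.card_fun, Fintype.card_fun, Fintype.card_prod,
    Fintype.card_coe, Fintype.card_fin, Fintype.card_fin, Fintype.card_bool]
  congr 2
  have h2 : (Finset.univ.filter (fun x => x ∉ S)) = Sᶜ := by
    ext x
    simp
  rw [Fintype.card_subtype, h2, Finset.card_compl]

/-- the agreement, as a sign -/
noncomputable def gs (M : Alg) (y : X → List Bool)
    (O : (X → (Fin n → Bool)) → (X → Bool) → Oracle) (x : X)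
    (ω : (X → (Fin n → Bool)) × (X → Bool)) : ℝ :=
  sg (decide (M.out (O ω.1 ω.2) (y x) = some [true])) * sg (ω.2 x)

theorem gs_abs (x : X) (ω : (X → (Fin n → Bool)) × (X → Bool)) :
    gs M y O x ω = 1 ∨ gs M y O x ω = -1 := by
  unfold gs sg
  cases decide (M.out (O ω.1 ω.2) (y x) = some [true]) <;> cases ω.2 x <;> norm_num

theorem gs_ind (x : X) (ω : (X → (Fin n → Bool)) × (X → Bool)) :
    (if (M.out (O ω.1 ω.2) (y x) = some [true] ↔ ω.2 x = true) then (1 : ℝ) else 0) =
      (1 + gs M y O x ω) / 2 := by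
  unfold gs sg
  by_cases h : M.out (O ω.1 ω.2) (y x) = some [true] <;> cases hb : ω.2 x <;> simp [h]

open Classical in
/-- the keys that are not met -/
noncomputable def Un (M : Alg) (y : X → List Bool)
    (O : (X → (Fin n → Bool)) → (X → Bool) → Oracle)
    (τ : List Bool → Option (X × (Fin n → Bool))) (S : Finset X)
    (ω : (X → (Fin n → Bool)) × (X → Bool)) : Finset X :=
  S.filter (fun x' => ∀ x ∈ S, ¬ Hit M y O τ x x' ω.1 ω.2)

open Classical in
/-- some element -/
noncomputable def pk (U : Finset X) (x₀ : X) : X := if h : U.Nonempty then h.choose else x₀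

theorem pk_mem {U : Finset X} (h : U.Nonempty) (x₀ : X) : pk U x₀ ∈ U := by
  unfold pk
  rw [dif_pos h]
  exact h.choose_spec

theorem Un_flip (hK : Keyed O τ) {S : Finset X} {ω : (X → (Fin n → Bool)) × (X → Bool)} {x' : X}
    (hx' : x' ∈ Un M y O τ S ω) (c : Bool) :
    Un M y O τ S (ω.1, Function.update ω.2 x' c) = Un M y O τ S ω := by
  classical
  unfold Un at hx' ⊢
  rw [Finset.mem_filter] at hx'
  refine Finset.filter_congr fun x'' _ => ?_
  refine forall_congr' fun x => forall_congr' fun hx => not_congr ?_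
  exact hit_flip hK c (hx'.2 x hx)

open Classical in
/-- the sum over the pairs for which some key is not met vanishes -/
theorem sum_not (hK : Keyed O τ) (S : Finset X) :
    ∑ ω ∈ univ.filter (fun ω : (X → (Fin n → Bool)) × (X → Bool) =>
      ¬ AllHit M y O τ S ω.1 ω.2), ∏ x ∈ S, gs M y O x ω = 0 := by
  by_cases hX : Nonempty X
  swap
  · have hS : S = ∅ := Finset.eq_empty_of_forall_notMem fun x _ => hX ⟨x⟩
    rw [Finset.filter_false_of_mem, Finset.sum_empty]
    intro ω _ h
    exact h fun x' hx' => absurd hx' (by rw [hS]; simp)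
  obtain ⟨x₀⟩ := hX
  have hne : ∀ ω : (X → (Fin n → Bool)) × (X → Bool), ¬ AllHit M y O τ S ω.1 ω.2 →
      (Un M y O τ S ω).Nonempty := by
    intro ω h
    unfold AllHit at h
    push Not at h
    obtain ⟨x', hx', h⟩ := h
    exact ⟨x', Finset.mem_filter.2 ⟨hx', h⟩⟩
  have hnot : ∀ ω : (X → (Fin n → Bool)) × (X → Bool), (Un M y O τ S ω).Nonempty →
      ¬ AllHit M y O τ S ω.1 ω.2 := by
    rintro ω ⟨x', hx'⟩ h
    obtain ⟨h1, h2⟩ := Finset.mem_filter.1 hx'
    obtain ⟨x, hx, h3⟩ := h x' h1
    exact h2 x hx h3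
  refine Finset.sum_involution (fun ω _ => (ω.1, Function.update ω.2 (pk (Un M y O τ S ω) x₀)
    (!ω.2 (pk (Un M y O τ S ω) x₀)))) ?_ ?_ ?_ ?_
  · intro ω hω
    rw [Finset.mem_filter] at hω
    have hU := pk_mem (hne ω hω.2) x₀
    obtain ⟨x', hx'⟩ : ∃ x', x' = pk (Un M y O τ S ω) x₀ := ⟨_, rfl⟩
    rw [← hx'] at hU ⊢
    obtain ⟨hS, hnh⟩ := Finset.mem_filter.1 hU
    have h1 : ∀ x ∈ S, gs M y O x (ω.1, Function.update ω.2 x' (!ω.2 x')) =
        if x = x' then - gs M y O x ω else gs M y O x ω := by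
      intro x hx
      unfold gs
      rw [(run_flip hK _ (hnh x hx)).1]
      split_ifs with he
      · subst he
        simp only [Function.update_self]
        unfold sg
        cases ω.2 x <;> norm_num
      · simp only [Function.update_of_ne he]
    rw [Finset.prod_congr rfl h1]
    rw [← Finset.mul_prod_erase S (fun x => if x = x' then - gs M y O x ω else gs M y O x ω) hS,
      ← Finset.mul_prod_erase S (fun x => gs M y O x ω) hS]
    rw [if_pos rfl]
    have h2 : ∏ x ∈ S.erase x', (if x = x' then - gs M y O x ω else gs M y O x ω) =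
        ∏ x ∈ S.erase x', gs M y O x ω :=
      Finset.prod_congr rfl fun x hx => by rw [if_neg (Finset.ne_of_mem_erase hx)]
    rw [h2]
    ring
  · intro ω hω _ h
    have h1 := congrFun (congrArg Prod.snd h) (pk (Un M y O τ S ω) x₀)
    simp at h1
  · intro ω hω
    rw [Finset.mem_filter] at hω ⊢
    refine ⟨Finset.mem_univ _, hnot _ ?_⟩
    rw [Un_flip hK (pk_mem (hne ω hω.2) x₀)]
    exact hne ω hω.2
  · intro ω hω
    rw [Finset.mem_filter] at hω
    have h1 := Un_flip hK (pk_mem (hne ω hω.2) x₀) (!ω.2 (pk (Un M y O τ S ω) x₀))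
    simp only [h1]
    refine Prod.ext rfl ?_
    simp

open Classical in
theorem all_right (hK : Keyed O τ) {p : ℕ} (hp : ∀ x, M.p.eval (y x).length ≤ p) :
    ((univ.filter (fun ω : (X → (Fin n → Bool)) × (X → Bool) => ∀ x,
      (M.out (O ω.1 ω.2) (y x) = some [true] ↔ ω.2 x = true))).card : ℝ) ≤
      (2 ^ n) ^ Fintype.card X * (1 + Fintype.card X * p / 2 ^ n) ^ Fintype.card X := by
  obtain ⟨K, hKd⟩ : ∃ K, K = Fintype.card X := ⟨_, rfl⟩
  rw [← hKd]
  have h1 : ((univ.filter (fun ω : (X → (Fin n → Bool)) × (X → Bool) => ∀ x,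
      (M.out (O ω.1 ω.2) (y x) = some [true] ↔ ω.2 x = true))).card : ℝ) =
      ∑ ω : (X → (Fin n → Bool)) × (X → Bool), ∏ x, ((1 + gs M y O x ω) / 2) := by
    rw [← Finset.sum_boole]
    refine Finset.sum_congr rfl fun ω _ => ?_
    rw [Finset.prod_congr rfl fun x _ => (gs_ind (M := M) (y := y) (O := O) x ω).symm]
    rw [Finset.prod_ite_zero]
    simp
  have h2 : ∀ ω : (X → (Fin n → Bool)) × (X → Bool), ∏ x, ((1 + gs M y O x ω) / 2) =
      (1 / 2) ^ K * ∑ S ∈ (univ : Finset X).powerset, ∏ x ∈ S, gs M y O x ω := by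
    intro ω
    rw [Finset.prod_div_distrib, Finset.prod_const, Finset.card_univ, ← hKd,
      Finset.prod_one_add]
    rw [one_div, inv_pow]
    field_simp
  rw [h1, Finset.sum_congr rfl fun ω _ => h2 ω, ← Finset.mul_sum, Finset.sum_comm]
  have hpos : (0 : ℝ) < 2 ^ n := by positivity
  have h3 : ∀ S ∈ (univ : Finset X).powerset,
      ∑ ω : (X → (Fin n → Bool)) × (X → Bool), ∏ x ∈ S, gs M y O x ω ≤
      2 ^ K * (2 ^ n) ^ K * (K * p / 2 ^ n) ^ S.card := by
    intro S _
    rw [← Finset.sum_filter_add_sum_filter_not univ (fun ω : (X → (Fin n → Bool)) × (X → Bool) =>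
      AllHit M y O τ S ω.1 ω.2), sum_not hK S, add_zero]
    have h4 : ∑ ω ∈ univ.filter (fun ω : (X → (Fin n → Bool)) × (X → Bool) =>
        AllHit M y O τ S ω.1 ω.2), ∏ x ∈ S, gs M y O x ω ≤
        ((univ.filter (fun ω : (X → (Fin n → Bool)) × (X → Bool) =>
        AllHit M y O τ S ω.1 ω.2)).card : ℝ) := by
      rw [← nsmul_one (Finset.card _), ← Finset.sum_const]
      refine Finset.sum_le_sum fun ω _ => ?_
      refine (le_abs_self _).trans ?_
      rw [Finset.abs_prod]
      refine le_of_eq (Finset.prod_eq_one fun x _ => ?_)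
      rcases gs_abs (M := M) (y := y) (O := O) x ω with h | h <;> rw [h] <;> norm_num
    have h5 : (univ.filter (fun ω : (X → (Fin n → Bool)) × (X → Bool) =>
        AllHit M y O τ S ω.1 ω.2)).card ≤
        2 ^ K * ((2 ^ n) ^ (K - S.card) * (S.card * p) ^ S.card) := by
      have h6 : (univ.filter (fun ω : (X → (Fin n → Bool)) × (X → Bool) =>
        AllHit M y O τ S ω.1 ω.2)) = (univ : Finset (X → Bool)).biUnion (fun b =>
          (univ.filter (fun k : X → (Fin n → Bool) => AllHit M y O τ S k b)).image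
            (fun k => (k, b))) := by
        ext ω
        simp only [Finset.mem_filter, Finset.mem_univ, true_and, Finset.mem_biUnion,
          Finset.mem_image]
        constructor
        · intro h
          exact ⟨ω.2, ω.1, h, rfl⟩
        · rintro ⟨b, k, h, rfl⟩
          exact h
      rw [h6]
      refine Finset.card_biUnion_le.trans ?_
      refine (Finset.sum_le_sum (g := fun _ => (2 ^ n) ^ (K - S.card) * (S.card * p) ^ S.card)
        fun b _ => ?_).trans ?_
      · refine Finset.card_image_le.trans ?_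
        rw [hKd]
        exact card_allHit hK S b hp
      · rw [Finset.sum_const, Finset.card_univ, Fintype.card_fun, Fintype.card_bool, ← hKd,
          smul_eq_mul]
    refine h4.trans ?_
    have h7 : ((2 ^ K * ((2 ^ n) ^ (K - S.card) * (S.card * p) ^ S.card) : ℕ) : ℝ) ≤
        2 ^ K * (2 ^ n) ^ K * (K * p / 2 ^ n) ^ S.card := by
      push_cast
      rw [mul_assoc]
      apply mul_le_mul_of_nonneg_left _ (by positivity)
      have hSK : S.card ≤ K := by rw [hKd]; exact Finset.card_le_univ S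
      have e1 : ((2 : ℝ) ^ n) ^ K = (2 ^ n) ^ (K - S.card) * (2 ^ n) ^ S.card := by
        rw [← pow_add, Nat.sub_add_cancel hSK]
      rw [e1, mul_assoc, ← mul_pow]
      apply mul_le_mul_of_nonneg_left _ (by positivity)
      apply pow_le_pow_left₀ (by positivity)
      rw [mul_div_cancel₀ _ hpos.ne']
      apply mul_le_mul_of_nonneg_right _ (by positivity)
      exact_mod_cast hSK
    refine le_trans ?_ h7
    exact_mod_cast h5
  have h8 : ∑ S ∈ (univ : Finset X).powerset, (2 : ℝ) ^ K * (2 ^ n) ^ K *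
      (K * p / 2 ^ n) ^ S.card = 2 ^ K * (2 ^ n) ^ K * (1 + K * p / 2 ^ n) ^ K := by
    rw [← Finset.mul_sum]
    congr 1
    have := Finset.sum_pow_mul_eq_add_pow ((K : ℝ) * p / 2 ^ n) 1 (univ : Finset X)
    simp only [one_pow, mul_one] at this
    rw [this, Finset.card_univ, ← hKd, add_comm]
  have h9 := (Finset.sum_le_sum h3).trans (le_of_eq h8)
  calc _ ≤ (1 / 2 : ℝ) ^ K * (2 ^ K * (2 ^ n) ^ K * (1 + K * p / 2 ^ n) ^ K) :=
        mul_le_mul_of_nonneg_left h9 (by positivity)
    _ = (2 ^ n) ^ K * (1 + K * p / 2 ^ n) ^ K := by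
        rw [← mul_assoc, ← mul_assoc, ← mul_pow]
        norm_num

end

end Pool.Agent.W908.KS
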